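import Pool.Agent.Helper83.RelQ.Defs
import Pool.Agent.Helper33.QU.Dom

/-! T-REL for quadric bundles, piece Q5: dominance over a base ring. -/

set_option autoImplicit false

namespace Pool.Agent.Helper33.RelQ

open Matrix Pool.Agent.Helper49.QU Pool.Agent.Helper83.RelQ Pool.Agent.Helper33.QU
open Pool.Agent.Helper65.CB AlgebraicGeometry CategoryTheory

section Rings

variable {A : Type} [CommRing A] {n r : ℕ} {N : Fin r → ℕ}

/-- the tautological point is isotropic -/
theorem qringR_rel (B : ∀ i : Fin r, Matrix (Fin (N i)) (Fin (N i)) (MvPolynomial (Fin n) A))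
    (δ : MvPolynomial (Fin n) A) (i : Fin r) :
    bil ((B i).map (algebraMap (MvPolynomial (Fin n) A) (QRingR B δ)))
      (fun j => (Ideal.Quotient.mk _ (MvPolynomial.X ⟨i, j⟩) : QRingR B δ))
      (fun j => Ideal.Quotient.mk _ (MvPolynomial.X ⟨i, j⟩)) = 0 := by
  have h1 : (∑ j, ∑ k, MvPolynomial.C (algebraMap _ (Localization.Away δ)
      (B i j k)) * MvPolynomial.X (⟨i, j⟩ : Σ i : Fin r, Fin (N i)) *
        MvPolynomial.X (⟨i, k⟩ : Σ i : Fin r, Fin (N i)) :
        MvPolynomial (Σ i : Fin r, Fin (N i)) (Localization.Away δ)) ∈ Ideal.span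
    (Set.range fun i : Fin r => ∑ j, ∑ k, MvPolynomial.C (algebraMap _ (Localization.Away δ)
      (B i j k)) * MvPolynomial.X (⟨i, j⟩ : Σ i : Fin r, Fin (N i)) *
        MvPolynomial.X (⟨i, k⟩ : Σ i : Fin r, Fin (N i))) := Ideal.subset_span ⟨i, rfl⟩
  rw [← Ideal.Quotient.eq_zero_iff_mem, map_sum] at h1
  rw [← h1]
  unfold bil
  refine Finset.sum_congr rfl fun j _ => ?_
  rw [map_sum]
  refine Finset.sum_congr rfl fun k _ => ?_
  rw [map_mul, map_mul, Matrix.map_apply]
  have h2 : algebraMap (MvPolynomial (Fin n) A) (QRingR B δ) (B i j k) =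
    Ideal.Quotient.mk _ (MvPolynomial.C (algebraMap _ (Localization.Away δ) (B i j k))) := rfl
  rw [h2]
  ring

/-- homomorphisms out of `QRingR` -/
theorem qringR_lift {S : Type} [CommRing S]
    (B : ∀ i : Fin r, Matrix (Fin (N i)) (Fin (N i)) (MvPolynomial (Fin n) A))
    (δ : MvPolynomial (Fin n) A) (g : MvPolynomial (Fin n) A →+* S) (hg : IsUnit (g δ))
    (u : ∀ i, Fin (N i) → S) (hu : ∀ i, bil ((B i).map g) (u i) (u i) = 0) :
    ∃ φ : QRingR B δ →+* S, (∀ x, φ (algebraMap (MvPolynomial (Fin n) A) (QRingR B δ) x) = g x) ∧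
      ∀ i j, φ (Ideal.Quotient.mk _ (MvPolynomial.X ⟨i, j⟩)) = u i j := by
  obtain ⟨lB, hlB⟩ : ∃ lB : Localization.Away δ →+* S, ∀ x, lB (algebraMap _ _ x) = g x :=
    ⟨IsLocalization.Away.lift δ hg, fun x => IsLocalization.Away.lift_eq δ hg x⟩
  obtain ⟨φ0, hφC, hφX⟩ : ∃ φ0 : MvPolynomial (Σ i, Fin (N i)) (Localization.Away δ) →+* S,
      (∀ c, φ0 (MvPolynomial.C c) = lB c) ∧ ∀ m, φ0 (MvPolynomial.X m) = u m.1 m.2 :=
    ⟨MvPolynomial.eval₂Hom lB (fun m => u m.1 m.2), fun c => MvPolynomial.eval₂Hom_C _ _ _,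
      fun m => MvPolynomial.eval₂Hom_X' _ _ _⟩
  have hker : ∀ p ∈ Ideal.span
    (Set.range fun i : Fin r => ∑ j, ∑ k, MvPolynomial.C (algebraMap _ (Localization.Away δ)
      (B i j k)) * MvPolynomial.X (⟨i, j⟩ : Σ i : Fin r, Fin (N i)) *
        MvPolynomial.X (⟨i, k⟩ : Σ i : Fin r, Fin (N i))), φ0 p = 0 := by
    intro p hp
    refine (Ideal.span_le (I := RingHom.ker φ0)).2 ?_ hp
    rintro _ ⟨i, rfl⟩
    show φ0 (∑ j, ∑ k, MvPolynomial.C (algebraMap _ (Localization.Away δ)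
      (B i j k)) * MvPolynomial.X (⟨i, j⟩ : Σ i : Fin r, Fin (N i)) *
        MvPolynomial.X (⟨i, k⟩ : Σ i : Fin r, Fin (N i))) = 0
    rw [← hu i, map_sum]
    unfold bil
    refine Finset.sum_congr rfl fun j _ => ?_
    rw [map_sum]
    refine Finset.sum_congr rfl fun k _ => ?_
    rw [map_mul, map_mul, hφC, hφX, hφX, hlB, Matrix.map_apply]
    ring
  refine ⟨Ideal.Quotient.lift _ φ0 hker, fun x => ?_, fun i j => ?_⟩
  · have h2 : algebraMap (MvPolynomial (Fin n) A) (QRingR B δ) x =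
      Ideal.Quotient.mk _ (MvPolynomial.C (algebraMap _ (Localization.Away δ) x)) := rfl
    rw [h2, Ideal.Quotient.lift_mk, hφC, hlB]
  · rw [Ideal.Quotient.lift_mk, hφX]

/-- two homomorphisms out of `QRingR` -/
theorem qringR_ext {S : Type} [CommRing S]
    (B : ∀ i : Fin r, Matrix (Fin (N i)) (Fin (N i)) (MvPolynomial (Fin n) A))
    (δ : MvPolynomial (Fin n) A) (f g : QRingR B δ →+* S)
    (h1 : ∀ x, f (algebraMap (MvPolynomial (Fin n) A) (QRingR B δ) x) =
      g (algebraMap (MvPolynomial (Fin n) A) (QRingR B δ) x))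
    (h2 : ∀ i j, f (Ideal.Quotient.mk _ (MvPolynomial.X ⟨i, j⟩)) =
      g (Ideal.Quotient.mk _ (MvPolynomial.X ⟨i, j⟩))) : f = g := by
  refine Ideal.Quotient.ringHom_ext (MvPolynomial.ringHom_ext (fun c => ?_) fun m => ?_)
  · have h3 : f.comp (algebraMap (Localization.Away δ) (QRingR B δ)) =
        g.comp (algebraMap (Localization.Away δ) (QRingR B δ)) :=
      IsLocalization.ringHom_ext (Submonoid.powers δ) (RingHom.ext h1)
    exact congrArg (fun f : Localization.Away δ →+* S => f c) h3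
  · exact h2 m.1 m.2

/-- homomorphisms out of `CRingR` -/
theorem cringR_lift {m : ℕ} {S : Type} [CommRing S] (a b : Fin r → MvPolynomial (Fin m) A)
    (g : MvPolynomial (Fin m) A →+* S) (x y : Fin r → S)
    (h : ∀ i, x i ^ 2 = g (a i) * y i ^ 2 + g (b i)) :
    ∃ θ : CRingR a b →+* S, (∀ e, θ (algebraMap (MvPolynomial (Fin m) A) (CRingR a b) e) = g e) ∧
      (∀ i, θ (Ideal.Quotient.mk _ (MvPolynomial.X (i, 0))) = x i) ∧
      ∀ i, θ (Ideal.Quotient.mk _ (MvPolynomial.X (i, 1))) = y i := by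
  obtain ⟨θ0, hC, hX0, hX1⟩ : ∃ θ0 : MvPolynomial (Fin r × Fin 2) (MvPolynomial (Fin m) A) →+* S,
      (∀ c, θ0 (MvPolynomial.C c) = g c) ∧ (∀ i, θ0 (MvPolynomial.X (i, 0)) = x i) ∧
        ∀ i, θ0 (MvPolynomial.X (i, 1)) = y i :=
    ⟨MvPolynomial.eval₂Hom g (fun l => if l.2 = 0 then x l.1 else y l.1),
      fun c => MvPolynomial.eval₂Hom_C _ _ _,
      fun i => by rw [MvPolynomial.eval₂Hom_X']; exact if_pos rfl,
      fun i => by
        rw [MvPolynomial.eval₂Hom_X']
        exact if_neg (show ¬ (1 : Fin 2) = 0 by decide)⟩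
  have hker : ∀ p ∈ Ideal.span
    (Set.range fun i : Fin r => (MvPolynomial.X (i, 0) ^ 2 -
        MvPolynomial.C (a i) * MvPolynomial.X (i, 1) ^ 2 - MvPolynomial.C (b i) :
        MvPolynomial (Fin r × Fin 2) (MvPolynomial (Fin m) A))), θ0 p = 0 := by
    intro p hp
    refine (Ideal.span_le (I := RingHom.ker θ0)).2 ?_ hp
    rintro _ ⟨i, rfl⟩
    show θ0 (MvPolynomial.X (i, 0) ^ 2 -
        MvPolynomial.C (a i) * MvPolynomial.X (i, 1) ^ 2 - MvPolynomial.C (b i)) = 0
    rw [map_sub, map_sub, map_mul, map_pow, map_pow, hX0, hX1, hC, hC, h]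
    ring
  refine ⟨Ideal.Quotient.lift _ θ0 hker, fun e => ?_, fun i => ?_, fun i => ?_⟩
  · have h2 : algebraMap (MvPolynomial (Fin m) A) (CRingR a b) e =
      Ideal.Quotient.mk _ (MvPolynomial.C e) := rfl
    rw [h2, Ideal.Quotient.lift_mk, hC]
  · rw [Ideal.Quotient.lift_mk, hX0]
  · rw [Ideal.Quotient.lift_mk, hX1]

/-- the point of the conic -/
theorem cringR_rel {m : ℕ} (a b : Fin r → MvPolynomial (Fin m) A) (i : Fin r) :
    (Ideal.Quotient.mk _ (MvPolynomial.X (i, 0)) : CRingR a b) ^ 2 =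
      algebraMap (MvPolynomial (Fin m) A) (CRingR a b) (a i) *
        Ideal.Quotient.mk _ (MvPolynomial.X (i, 1)) ^ 2 +
        algebraMap (MvPolynomial (Fin m) A) (CRingR a b) (b i) := by
  have h1 : (MvPolynomial.X (i, 0) ^ 2 -
        MvPolynomial.C (a i) * MvPolynomial.X (i, 1) ^ 2 - MvPolynomial.C (b i) :
        MvPolynomial (Fin r × Fin 2) (MvPolynomial (Fin m) A)) ∈ Ideal.span
    (Set.range fun i : Fin r => (MvPolynomial.X (i, 0) ^ 2 -
        MvPolynomial.C (a i) * MvPolynomial.X (i, 1) ^ 2 - MvPolynomial.C (b i) :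
        MvPolynomial (Fin r × Fin 2) (MvPolynomial (Fin m) A))) := Ideal.subset_span ⟨i, rfl⟩
  rw [← Ideal.Quotient.eq_zero_iff_mem, map_sub, map_sub, map_mul, map_pow, map_pow] at h1
  have h2 : ∀ e, algebraMap (MvPolynomial (Fin m) A) (CRingR a b) e =
      Ideal.Quotient.mk _ (MvPolynomial.C e) := fun e => rfl
  rw [h2, h2]
  linear_combination h1

theorem qringR_nontrivial [IsDomain A]
    (B : ∀ i : Fin r, Matrix (Fin (N i)) (Fin (N i)) (MvPolynomial (Fin n) A))
    (δ : MvPolynomial (Fin n) A) (hδ : δ ≠ 0) : Nontrivial (QRingR B δ) := by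
  obtain ⟨φ, -, -⟩ := qringR_lift B δ (algebraMap _ (FractionRing (MvPolynomial (Fin n) A)))
    (IsUnit.mk0 _ (by
      rwa [Ne, map_eq_zero_iff _ (IsFractionRing.injective (MvPolynomial (Fin n) A)
        (FractionRing (MvPolynomial (Fin n) A)))]))
    (fun _ _ => 0) (fun i => by simp [bil])
  exact φ.domain_nontrivial

/-- values of a homomorphism on the old and the new variables -/
theorem exists_rhoR {R : Type} [CommRing R] (g : MvPolynomial (Fin n) A →+* R)
    (val : ∀ i : Fin r, Fin 3 → Fin (N i) → R) :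
    ∃ ρ : MvPolynomial (Fin (vn N + n)) A →+* R,
      (∀ x, ρ (incR n N A x) = g x) ∧ ∀ i c j, ρ (gvR n N A i c j) = val i c j := by
  obtain ⟨ρ, hC, hX⟩ : ∃ ρ : MvPolynomial (Fin (vn N + n)) A →+* R,
      (∀ c, ρ (MvPolynomial.C c) = g (MvPolynomial.C c)) ∧
      ∀ m : Fin (vn N + n), ρ (MvPolynomial.X m) = Fin.addCases
    (fun s => val ((Fintype.equivFin (VI N)).symm s).1 ((Fintype.equivFin (VI N)).symm s).2.1
      ((Fintype.equivFin (VI N)).symm s).2.2) (fun j => g (MvPolynomial.X j)) m :=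
    ⟨MvPolynomial.eval₂Hom (g.comp MvPolynomial.C) _, fun c => MvPolynomial.eval₂Hom_C _ _ _,
      fun m => MvPolynomial.eval₂Hom_X' _ _ _⟩
  refine ⟨ρ, ?_, ?_⟩
  · intro x
    have h1 : ρ.comp (incR n N A : MvPolynomial (Fin n) A →+* _) = g := by
      refine MvPolynomial.ringHom_ext (fun c => ?_) fun j => ?_
      · show ρ (incR n N A (MvPolynomial.C c)) = _
        unfold incR
        rw [MvPolynomial.rename_C, hC]
      · show ρ (incR n N A (MvPolynomial.X j)) = _
        unfold incR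
        rw [MvPolynomial.rename_X, hX]
        exact Fin.addCases_right _
    exact congrArg (fun f : MvPolynomial (Fin n) A →+* R => f x) h1
  · intro i c j
    unfold gvR
    rw [hX]
    unfold vix
    rw [Fin.addCases_left, Equiv.symm_apply_apply]

end Rings

variable {n r : ℕ} {N : Fin r → ℕ}

/-- **Q5.** -/
theorem dominatedR {K : Type} [Field K] {A : Type} [CommRing A] [IsDomain A] [Algebra K A]
    (B : ∀ i : Fin r, Matrix (Fin (N i)) (Fin (N i)) (MvPolynomial (Fin n) A))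
    (hB : ∀ i, (B i).IsSymm) (v : ∀ i : Fin r, Fin 3 → Fin (N i) → A)
    (δ : MvPolynomial (Fin n) A)
    (hδ : δ = ∏ i, D1 (B i) (fun c j => MvPolynomial.C (v i c j)) *
      D2 (B i) (fun c j => MvPolynomial.C (v i c j))) (hδ0 : δ ≠ 0) :
    DominatedOver K (Spec (CommRingCat.of (QRingR B δ)))
      (Spec (CommRingCat.of (CRingR (aQR N B) (bQR N B))))
      (Spec.map (CommRingCat.ofHom (algebraMap K (QRingR B δ))))
      (Spec.map (CommRingCat.ofHom (algebraMap K (CRingR (aQR N B) (bQR N B))))) := by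
  have hnt := qringR_nontrivial B δ hδ0
  have hδR : IsUnit (algebraMap (MvPolynomial (Fin n) A) (QRingR B δ) δ) := by
    rw [IsScalarTower.algebraMap_apply (MvPolynomial (Fin n) A) (Localization.Away δ) (QRingR B δ)]
    exact (IsLocalization.Away.algebraMap_isUnit (S := Localization.Away δ) δ).map
      (algebraMap (Localization.Away δ) (QRingR B δ))
  have hdiv : ∀ i, D1 (B i) (fun c j => MvPolynomial.C (v i c j)) *
      D2 (B i) (fun c j => MvPolynomial.C (v i c j)) ∣ δ := by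
    intro i
    rw [hδ]
    exact Finset.dvd_prod_of_mem (fun i => D1 (B i) (fun c j => MvPolynomial.C (v i c j)) *
      D2 (B i) (fun c j => MvPolynomial.C (v i c j))) (Finset.mem_univ i)
  exact dominated_core ((incR n N A).restrictScalars K) δ hδR B hB
    (fun i c j => MvPolynomial.C (v i c j))
    (fun i => (Dvd.intro _ rfl).trans (hdiv i)) (fun i => (Dvd.intro_left _ rfl).trans (hdiv i))
    (gvR n N A) (fun val => exists_rhoR (algebraMap (MvPolynomial (Fin n) A) (QRingR B δ)) val)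
    (fun i j => Ideal.Quotient.mk _ (MvPolynomial.X ⟨i, j⟩)) (qringR_rel B δ)
    (fun f hf u hu => qringR_lift B δ f hf u hu) (fun f g h1 h2 => qringR_ext B δ f g h1 h2)
    (aQR N B) (bQR N B) (fun i => rfl) (fun i => rfl)
    (fun i => Ideal.Quotient.mk _ (MvPolynomial.X (i, 0)))
    (fun i => Ideal.Quotient.mk _ (MvPolynomial.X (i, 1)))
    (fun i => cringR_rel (aQR N B) (bQR N B) i)
    (fun f x y h => cringR_lift (aQR N B) (bQR N B) f x y h)

end Pool.Agent.Helper33.RelQ
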